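import Pool.Agent.Lib.MP_af3a4a_an.P1.CHK.DATA.N34x35.K0
import Pool.Agent.Lib.MP_af3a4a_an.P1.CHK.DATA.N34x35.K1
import Pool.Agent.Lib.MP_af3a4a_an.P1.CHK.DATA.N34x35.K2
import Pool.Agent.Lib.MP_af3a4a_an.P1.CHK.DATA.N34x35.K3

/-! glue for 34 <= N <= 35 (generated) -/

set_option autoImplicit false
set_option maxRecDepth 100000

namespace Pool.Agent.Lib.MP_af3a4a_an.P1.CHK.DATA.N34x35

open BOX

theorem g0 : ChunkP 34 35 0 512 0 101 0 2484 := ChunkP.g k0 k1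
theorem g1 : ChunkP 34 35 512 1024 64 80 1296 2484 := ChunkP.r k7 k8
theorem g2 : ChunkP 34 35 512 1024 64 80 1248 2484 := ChunkP.R k6 g1
theorem g3 : ChunkP 34 35 512 1024 64 80 1152 2484 := ChunkP.R k5 g2
theorem g4 : ChunkP 34 35 512 1024 64 80 768 2484 := ChunkP.R k4 g3
theorem g5 : ChunkP 34 35 512 1024 64 80 0 2484 := ChunkP.R k3 g4
theorem g6 : ChunkP 34 35 768 1024 80 88 1728 2484 := ChunkP.r k19 k20
theorem g7 : ChunkP 34 35 768 1024 80 88 1680 2484 := ChunkP.R k18 g6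
theorem g8 : ChunkP 34 35 768 1024 80 88 1632 2484 := ChunkP.R k17 g7
theorem g9 : ChunkP 34 35 768 1024 80 88 1488 2484 := ChunkP.R k16 g8
theorem g10 : ChunkP 34 35 768 1024 80 96 1488 2484 := ChunkP.g g9 k21
theorem g11 : ChunkP 34 35 768 1024 80 96 1440 2484 := ChunkP.R k15 g10
theorem g12 : ChunkP 34 35 768 1024 80 96 1344 2484 := ChunkP.R k14 g11
theorem g13 : ChunkP 34 35 512 1024 80 96 1344 2484 := ChunkP.r k13 g12
theorem g14 : ChunkP 34 35 512 1024 80 96 1296 2484 := ChunkP.R k12 g13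
theorem g15 : ChunkP 34 35 512 1024 80 96 1200 2484 := ChunkP.R k11 g14
theorem g16 : ChunkP 34 35 512 1024 80 96 816 2484 := ChunkP.R k10 g15
theorem g17 : ChunkP 34 35 512 1024 80 96 0 2484 := ChunkP.R k9 g16
theorem g18 : ChunkP 34 35 512 1024 64 96 0 2484 := ChunkP.g g5 g17
theorem g19 : ChunkP 34 35 512 1024 64 101 0 2484 := ChunkP.g g18 k22
theorem g20 : ChunkP 34 35 512 1024 0 101 0 2484 := ChunkP.g k2 g19
theorem g21 : ChunkP 34 35 0 1024 0 101 0 2484 := ChunkP.r g0 g20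
theorem g22 : ChunkP 34 35 1024 1280 64 80 1392 2484 := ChunkP.g k30 k31
theorem g23 : ChunkP 34 35 1024 1280 64 80 1344 2484 := ChunkP.R k29 g22
theorem g24 : ChunkP 34 35 1024 1280 64 80 1248 2484 := ChunkP.R k28 g23
theorem g25 : ChunkP 34 35 1024 1280 64 80 1056 2484 := ChunkP.R k27 g24
theorem g26 : ChunkP 34 35 1024 1280 64 80 576 2484 := ChunkP.R k26 g25
theorem g27 : ChunkP 34 35 1024 1536 64 80 576 2484 := ChunkP.r g26 k32
theorem g28 : ChunkP 34 35 1024 1536 64 80 480 2484 := ChunkP.R k25 g27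
theorem g29 : ChunkP 34 35 1024 1536 64 80 0 2484 := ChunkP.R k24 g28
theorem g30 : ChunkP 34 35 1024 1536 80 96 528 2484 := ChunkP.r k35 k36
theorem g31 : ChunkP 34 35 1024 1536 80 96 480 2484 := ChunkP.R k34 g30
theorem g32 : ChunkP 34 35 1024 1536 80 96 0 2484 := ChunkP.R k33 g31
theorem g33 : ChunkP 34 35 1024 1536 64 96 0 2484 := ChunkP.g g29 g32
theorem g34 : ChunkP 34 35 1024 1536 64 101 0 2484 := ChunkP.g g33 k37
theorem g35 : ChunkP 34 35 1024 1536 0 101 0 2484 := ChunkP.g k23 g34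
theorem g36 : ChunkP 34 35 1536 2048 64 96 0 2484 := ChunkP.g k39 k40
theorem g37 : ChunkP 34 35 1536 2048 64 101 0 2484 := ChunkP.g g36 k41
theorem g38 : ChunkP 34 35 1536 2048 0 101 0 2484 := ChunkP.g k38 g37
theorem g39 : ChunkP 34 35 1024 2048 0 101 0 2484 := ChunkP.r g35 g38
theorem g40 : ChunkP 34 35 0 2048 0 101 0 2484 := ChunkP.r g21 g39
theorem g41 : ChunkP 34 35 2048 3072 0 101 0 2484 := ChunkP.r k42 k43
theorem g42 : ChunkP 34 35 2048 4096 0 101 0 2484 := ChunkP.r g41 k44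
theorem g43 : ChunkP 34 35 0 4096 0 101 0 2484 := ChunkP.r g40 g42

/-- the whole box -/
theorem allBox : ChunkP 34 35 0 4096 0 101 0 2484 := g43

theorem full {N : ℕ} (hNa : 34 ≤ N) (hNb : N ≤ 35) {z w : Fin N → ℂ} {R : ℝ} {σ : Fin N → ℂ}
    (hC : Pool.Agent.Lib.MP_af3a4a_an.P1.H80.Cfg2 N z w R σ) : ((2484 : ℕ) : ℝ) / 1024 < R := ChunkP.full allBox hNa hNb hC

end Pool.Agent.Lib.MP_af3a4a_an.P1.CHK.DATA.N34x35
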